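import Pool.Agent.W313.BM.Sums

set_option autoImplicit false

/-! # A matroid which is not a direct sum of a finitary and a cofinitary matroid -/

namespace Pool.Agent.W313.BM

open Set Matroid

variable {S : Type*}

open Classical in
/-- The infinite circuit on `insert a B`. -/
noncomputable def circ (a : S) (C : Set S) : Matroid S := ((freeOn {a}).comapOn C (fun _ => a))✶

theorem circ_indep (a : S) (C : Set S) (hC : C.Nonempty) (I : Set S) :
    (circ a C).Indep I ↔ I ⊆ C ∧ ∃ x ∈ C, x ∉ I := by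
  have hU : ∀ J : Set S, ((freeOn {a}).comapOn C (fun _ => a)).Indep J ↔
      J ⊆ C ∧ J.Subsingleton := by
    intro J
    rw [comapOn_indep_iff, freeOn_indep_iff]
    constructor
    · rintro ⟨-, h2, h3⟩
      exact ⟨h3, fun x hx y hy => h2 hx hy rfl⟩
    · rintro ⟨h1, h2⟩
      exact ⟨by rintro x ⟨y, -, rfl⟩; rfl, fun x hx y hy _ => h2 hx hy, h1⟩
  have hbase : ∀ J : Set S, ((freeOn {a}).comapOn C (fun _ => a)).IsBase J ↔
      ∃ x ∈ C, J = {x} := by
    intro J
    rw [isBase_iff_maximal_indep]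
    constructor
    · intro h
      have h1 := (hU J).1 h.prop
      rcases h1.2.eq_empty_or_singleton with h2 | ⟨x, h2⟩
      · obtain ⟨x, hx⟩ := hC
        have h3 := h.le_of_ge ((hU {x}).2 ⟨by simpa using hx, subsingleton_singleton⟩)
          (by rw [h2]; exact empty_subset _)
        rw [h2] at h3
        exact absurd (h3 (mem_singleton x)) (notMem_empty x)
      · exact ⟨x, h1.1 (by rw [h2]; rfl), h2⟩
    · rintro ⟨x, hx, rfl⟩
      refine ⟨(hU {x}).2 ⟨by simpa using hx, subsingleton_singleton⟩, fun K hK hxK => ?_⟩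
      have h1 := ((hU K).1 hK).2
      intro y hy
      exact h1 hy (hxK rfl)
  unfold circ
  rw [dual_indep_iff_exists']
  constructor
  · rintro ⟨h1, J, hJ, hd⟩
    obtain ⟨x, hx, rfl⟩ := (hbase J).1 hJ
    exact ⟨h1, x, hx, fun h => disjoint_singleton_right.1 hd h⟩
  · rintro ⟨h1, x, hx, hxI⟩
    exact ⟨h1, {x}, (hbase _).2 ⟨x, hx, rfl⟩, disjoint_singleton_right.2 hxI⟩

open Classical in
/-- The infinite circuit `insert a B` with `a` replaced by the parallel class `A`. -/
noncomputable def ex (a : S) (A B : Set S) : Matroid S :=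
  (circ a (insert a B)).comapOn (A ∪ B) (fun x => if x ∈ A then a else x)

theorem ex_ground (a : S) (A B : Set S) : (ex a A B).E = A ∪ B := rfl

theorem ex_indep (a : S) (A B : Set S) (ha : a ∈ A) (hAB : Disjoint A B)
    (hB : B.Nonempty) (I : Set S) :
    (ex a A B).Indep I ↔ I ⊆ A ∪ B ∧ (I ∩ A).Subsingleton ∧ ((I ∩ A).Nonempty → ¬ B ⊆ I) := by
  classical
  unfold ex
  rw [comapOn_indep_iff, circ_indep _ _ (insert_nonempty _ _)]
  have hBA : ∀ x ∈ B, x ∉ A := fun x hx hxA => disjoint_left.1 hAB hxA hx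
  constructor
  · rintro ⟨⟨-, x, hx, hxI⟩, h2, h3⟩
    refine ⟨h3, fun u hu v hv => ?_, fun ⟨u, hu⟩ hBI => ?_⟩
    · apply h2 hu.1 hv.1
      simp [hu.2, hv.2]
    · apply hxI
      rcases hx with rfl | hx
      · exact ⟨u, hu.1, by simp [hu.2]⟩
      · exact ⟨x, hBI hx, by simp [hBA x hx]⟩
  · rintro ⟨h1, h2, h3⟩
    refine ⟨⟨?_, ?_⟩, ?_, h1⟩
    · rintro x ⟨y, hy, rfl⟩
      by_cases hyA : y ∈ A
      · simp [hyA]
      · simp only [hyA, if_false]
        rcases h1 hy with h | h
        · exact absurd h hyA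
        · exact Or.inr h
    · by_cases hne : (I ∩ A).Nonempty
      · obtain ⟨x, hxB, hxI⟩ := not_subset.1 (h3 hne)
        refine ⟨x, Or.inr hxB, ?_⟩
        rintro ⟨y, hy, hyx⟩
        by_cases hyA : y ∈ A
        · simp only [hyA, if_true] at hyx
          exact hBA x hxB (hyx ▸ ha)
        · simp only [hyA, if_false] at hyx
          exact hxI (hyx ▸ hy)
      · refine ⟨a, Or.inl rfl, ?_⟩
        rintro ⟨y, hy, hyx⟩
        by_cases hyA : y ∈ A
        · exact hne ⟨y, hy, hyA⟩
        · simp only [hyA, if_false] at hyx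
          exact hyA (hyx ▸ ha)
    · intro u hu v hv huv
      by_cases huA : u ∈ A <;> by_cases hvA : v ∈ A
      · exact h2 ⟨hu, huA⟩ ⟨hv, hvA⟩
      · simp only [huA, hvA, if_true, if_false] at huv
        exact absurd (huv ▸ ha) hvA
      · simp only [huA, hvA, if_true, if_false] at huv
        exact absurd (huv ▸ ha) huA
      · simpa only [huA, hvA, if_false] using huv

theorem ex_not_finitary (a : S) (A B : Set S) (ha : a ∈ A) (hAB : Disjoint A B)
    (hB : B.Infinite) : ¬ (ex a A B).Finitary := by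
  intro hf
  have hBne := hB.nonempty
  have h1 : (ex a A B).Indep (insert a B) := by
    apply hf.indep_of_forall_finite
    intro J hJ hJf
    rw [ex_indep a A B ha hAB hBne]
    refine ⟨fun x hx => ?_, fun x hx y hy => ?_, fun _ hBJ => hB (hJf.subset hBJ)⟩
    · rcases hJ hx with rfl | h
      · exact Or.inl ha
      · exact Or.inr h
    · have key : ∀ z ∈ J ∩ A, z = a := by
        intro z hz
        rcases hJ hz.1 with rfl | h
        · rfl
        · exact absurd h (disjoint_left.1 hAB hz.2)
      rw [key x hx, key y hy]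
  rw [ex_indep a A B ha hAB hBne] at h1
  exact h1.2.2 ⟨a, mem_insert _ _, ha⟩ (subset_insert _ _)

theorem ex_base (a : S) (A B : Set S) (ha : a ∈ A) (hAB : Disjoint A B)
    (hB : B.Nonempty) {x y : S} (hx : x ∈ A) (hy : y ∈ B) :
    (ex a A B).IsBase (insert x (B \ {y})) := by
  rw [isBase_iff_maximal_indep]
  have hxB : ∀ z ∈ B, z ∉ A := fun z hz hzA => disjoint_left.1 hAB hzA hz
  refine ⟨?_, ?_⟩
  · change (ex a A B).Indep _
    rw [ex_indep a A B ha hAB hB]
    refine ⟨?_, ?_, fun _ h => ?_⟩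
    · rintro z (rfl | hz)
      · exact Or.inl hx
      · exact Or.inr hz.1
    · rintro u ⟨hu | hu, huA⟩ v ⟨hv | hv, hvA⟩
      · rw [hu, hv]
      · exact absurd hvA (hxB v hv.1)
      · exact absurd huA (hxB u hu.1)
      · exact absurd huA (hxB u hu.1)
    · rcases h hy with h1 | h1
      · exact hxB y hy (h1 ▸ hx)
      · exact h1.2 rfl
  · intro K hK hsub
    have hK' : (ex a A B).Indep K := hK
    rw [ex_indep a A B ha hAB hB] at hK'
    obtain ⟨h1, h2, h3⟩ := hK'
    have hxK : x ∈ K := hsub (mem_insert _ _)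
    intro z hz
    rcases h1 hz with hzA | hzB
    · exact Or.inl (h2 ⟨hz, hzA⟩ ⟨hxK, hx⟩)
    · by_cases hzy : z = y
      · exfalso
        apply h3 ⟨x, hxK, hx⟩
        intro w hw
        by_cases hwy : w = y
        · rw [hwy, ← hzy]; exact hz
        · exact hsub (Or.inr ⟨hw, hwy⟩)
      · exact Or.inr ⟨hzB, hzy⟩

theorem ex_not_cofinitary (a : S) (A B : Set S) (ha : a ∈ A) (hAB : Disjoint A B)
    (hB : B.Nonempty) (hA : A.Infinite) : ¬ ((ex a A B)✶).Finitary := by
  intro hf
  obtain ⟨b, hb⟩ := hB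
  have hxB : ∀ z ∈ B, z ∉ A := fun z hz hzA => disjoint_left.1 hAB hzA hz
  have h1 : (ex a A B)✶.Indep (insert b A) := by
    apply hf.indep_of_forall_finite
    intro J hJ hJf
    obtain ⟨x, hxA, hxJ⟩ := hA.exists_notMem_finite hJf
    rw [dual_indep_iff_exists']
    refine ⟨?_, insert x (B \ {b}), ex_base a A B ha hAB ⟨b, hb⟩ hxA hb, ?_⟩
    · rw [ex_ground]
      intro z hz
      rcases hJ hz with rfl | h
      · exact Or.inr hb
      · exact Or.inl h
    · rw [disjoint_left]
      rintro z hzJ (rfl | hz)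
      · exact hxJ hzJ
      · rcases hJ hzJ with h | h
        · exact hz.2 h
        · exact hxB z hz.1 h
  rw [dual_indep_iff_exists'] at h1
  obtain ⟨-, K, hK, hd⟩ := h1
  have hKs : K ⊆ B := by
    intro z hz
    have h2 : z ∈ A ∪ B := hK.subset_ground hz
    rcases h2 with h2 | h2
    · exact absurd (Or.inr h2) (disjoint_right.1 hd hz)
    · exact h2
  have hbK : b ∉ K := fun h => disjoint_right.1 hd h (mem_insert _ _)
  have hBi : (ex a A B).Indep B := by
    rw [ex_indep a A B ha hAB ⟨b, hb⟩]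
    refine ⟨subset_union_right, ?_, ?_⟩
    · rintro u ⟨hu, huA⟩
      exact absurd huA (hxB u hu)
    · rintro ⟨u, hu, huA⟩
      exact absurd huA (hxB u hu)
  have h3 := hK.eq_of_subset_indep hBi hKs
  exact hbK (h3 ▸ hb)

/-- The example is not a direct sum of a finitary and of a cofinitary matroid. -/
theorem ex_not_good (a : S) (A B : Set S) (ha : a ∈ A) (hAB : Disjoint A B)
    (hA : A.Infinite) (hB : B.Infinite) : ¬ Good (ex a A B) := by
  rintro ⟨M₁, M₂, hd, hM, h1, h2⟩
  have hBne := hB.nonempty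
  have hxB : ∀ z ∈ B, z ∉ A := fun z hz hzA => disjoint_left.1 hAB hzA hz
  have hE : M₁.E ∪ M₂.E = A ∪ B := by
    rw [← ex_ground a A B, hM, disjointSum_ground_eq]
  -- independence in terms of the two parts
  have hind : ∀ I ⊆ A ∪ B, (ex a A B).Indep (I ∩ M₁.E) → (ex a A B).Indep (I ∩ M₂.E) →
      (ex a A B).Indep I := by
    intro I hI h3 h4
    rw [hM, disjointSum_indep_iff] at h3 h4 ⊢
    have e1 : I ∩ M₁.E ∩ M₁.E = I ∩ M₁.E := by rw [inter_assoc, inter_self]
    have e2 : I ∩ M₂.E ∩ M₂.E = I ∩ M₂.E := by rw [inter_assoc, inter_self]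
    rw [e1] at h3
    rw [e2] at h4
    exact ⟨h3.1, h4.2.1, by rw [hE]; exact hI⟩
  by_cases he1 : M₁.E = ∅
  · -- the whole matroid is cofinitary
    apply ex_not_cofinitary a A B ha hAB hBne hA
    have : ex a A B = M₂ := by
      rw [hM]
      refine ext_indep (by rw [disjointSum_ground_eq, he1, empty_union]) fun I hI => ?_
      rw [disjointSum_ground_eq, he1, empty_union] at hI
      rw [disjointSum_indep_iff, he1, inter_empty, empty_union,
        inter_eq_self_of_subset_left hI]
      simp [hI]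
    rw [this]
    exact h2
  by_cases he2 : M₂.E = ∅
  · apply ex_not_finitary a A B ha hAB hB
    have : ex a A B = M₁ := by
      rw [hM]
      refine ext_indep (by rw [disjointSum_ground_eq, he2, union_empty]) fun I hI => ?_
      rw [disjointSum_ground_eq, he2, union_empty] at hI
      rw [disjointSum_indep_iff, he2, inter_empty, union_empty,
        inter_eq_self_of_subset_left hI]
      simp [hI]
    rw [this]
    exact h1
  obtain ⟨u, hu⟩ := nonempty_iff_ne_empty.2 he1
  obtain ⟨v, hv⟩ := nonempty_iff_ne_empty.2 he2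
  have huv : u ∉ M₂.E := disjoint_left.1 hd hu
  have hvu : v ∉ M₁.E := disjoint_right.1 hd hv
  -- a circuit which contains both
  have key : ∀ w ∈ A, (∀ z ∈ insert w B, z ∈ insert w B) → u ∈ insert w B → v ∈ insert w B →
      False := by
    intro w hw _ huw hvw
    have hsub : insert w B ⊆ A ∪ B := by
      rintro z (rfl | hz)
      · exact Or.inl hw
      · exact Or.inr hz
    have proper : ∀ J ⊆ insert w B, ∀ t ∈ insert w B, t ∉ J → (ex a A B).Indep J := by
      intro J hJ t ht htJ
      rw [ex_indep a A B ha hAB hBne]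
      have k : ∀ z ∈ J ∩ A, z = w := by
        rintro z ⟨hz, hzA⟩
        rcases hJ hz with h | h
        · exact h
        · exact absurd hzA (hxB z h)
      refine ⟨hJ.trans hsub, fun x hx y hy => by rw [k x hx, k y hy], ?_⟩
      rintro ⟨z, hz⟩ hBJ
      have hzw := k z hz
      rcases ht with h | h
      · exact htJ (h ▸ hzw ▸ hz.1)
      · exact htJ (hBJ h)
    have h5 := hind (insert w B) hsub
      (proper _ inter_subset_left v hvw (fun h => hvu h.2))
      (proper _ inter_subset_left u huw (fun h => huv h.2))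
    rw [ex_indep a A B ha hAB hBne] at h5
    exact h5.2.2 ⟨w, mem_insert _ _, hw⟩ (subset_insert _ _)
  have hu' : u ∈ A ∪ B := by rw [← hE]; exact Or.inl hu
  have hv' : v ∈ A ∪ B := by rw [← hE]; exact Or.inr hv
  rcases hu' with huA | huB <;> rcases hv' with hvA | hvB
  · -- two parallel elements
    have hne : u ≠ v := fun h => huv (h ▸ hv)
    have single : ∀ w ∈ A, ∀ J ⊆ ({w} : Set S), (ex a A B).Indep J := by
      intro w hw J hJ
      rw [ex_indep a A B ha hAB hBne]
      refine ⟨fun z hz => Or.inl (by rw [hJ hz]; exact hw), fun x hx y hy => ?_, fun _ hBJ => ?_⟩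
      · rw [hJ hx.1, hJ hy.1]
      · exact hB ((finite_singleton w).subset (hBJ.trans hJ))
    have h5 := hind {u, v} (by
        rintro z (rfl | hz)
        · exact Or.inl huA
        · rw [mem_singleton_iff] at hz; rw [hz]; exact Or.inl hvA)
      (single u huA _ (by
        rintro z ⟨hz | hz, hz'⟩
        · exact hz
        · rw [mem_singleton_iff] at hz; rw [hz] at hz'; exact absurd hz' hvu))
      (single v hvA _ (by
        rintro z ⟨hz | hz, hz'⟩
        · rw [hz] at hz'; exact absurd hz' huv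
        · exact hz))
    rw [ex_indep a A B ha hAB hBne] at h5
    exact hne (h5.2.1 ⟨by simp, huA⟩ ⟨by simp, hvA⟩)
  · exact key u huA (fun _ h => h) (mem_insert _ _) (Or.inr hvB)
  · exact key v hvA (fun _ h => h) (Or.inr huB) (mem_insert _ _)
  · exact key a ha (fun _ h => h) (Or.inr huB) (Or.inr hvB)

end Pool.Agent.W313.BM
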