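import Mathlib

set_option autoImplicit false

/-! # Direct sums of a finitary and a cofinitary matroid -/

namespace Pool.Agent.W313.BM

open Set Matroid

variable {S : Type*}

/-- `M` is the direct sum of a finitary matroid and of a matroid whose dual is finitary. -/
def Good (M : Matroid S) : Prop :=
  ∃ (M₁ M₂ : Matroid S) (h : Disjoint M₁.E M₂.E),
    M = M₁.disjointSum M₂ h ∧ M₁.Finitary ∧ M₂✶.Finitary

theorem disjointSum_dual (M₁ M₂ : Matroid S) (h : Disjoint M₁.E M₂.E)
    (h' : Disjoint M₁✶.E M₂✶.E) :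
    (M₁.disjointSum M₂ h)✶ = M₁✶.disjointSum M₂✶ h' := by
  refine ext_isBase (by simp) fun B hB => ?_
  have hB' : B ⊆ M₁.E ∪ M₂.E := by simpa using hB
  rw [dual_isBase_iff (by simpa using hB'), disjointSum_isBase_iff, disjointSum_isBase_iff,
    dual_isBase_iff (by simp), dual_isBase_iff (by simp), disjointSum_ground_eq,
    dual_ground, dual_ground]
  have h1 : (M₁.E ∪ M₂.E) \ B ∩ M₁.E = M₁.E \ (B ∩ M₁.E) := by
    ext x; simp only [mem_inter_iff, mem_sdiff, mem_union]; tauto
  have h2 : (M₁.E ∪ M₂.E) \ B ∩ M₂.E = M₂.E \ (B ∩ M₂.E) := by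
    ext x; simp only [mem_inter_iff, mem_sdiff, mem_union]; tauto
  rw [h1, h2]
  simp only [sdiff_subset, hB', and_true]

theorem disjointSum_restrict (M₁ M₂ : Matroid S) (h : Disjoint M₁.E M₂.E) (Z : Set S)
    (hZ : Z ⊆ M₁.E ∪ M₂.E) :
    (M₁.disjointSum M₂ h) ↾ Z = (M₁ ↾ (Z ∩ M₁.E)).disjointSum (M₂ ↾ (Z ∩ M₂.E))
      (h.mono inter_subset_right inter_subset_right) := by
  refine ext_indep ?_ fun I hI => ?_
  · simp only [restrict_ground_eq, disjointSum_ground_eq]
    rw [← inter_union_distrib_left, inter_eq_self_of_subset_left hZ]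
  · have hIZ : I ⊆ Z := by simpa using hI
    simp only [restrict_indep_iff, disjointSum_indep_iff, restrict_ground_eq]
    have h1 : I ∩ (Z ∩ M₁.E) = I ∩ M₁.E := by
      rw [← inter_assoc, inter_eq_self_of_subset_left hIZ]
    have h2 : I ∩ (Z ∩ M₂.E) = I ∩ M₂.E := by
      rw [← inter_assoc, inter_eq_self_of_subset_left hIZ]
    rw [h1, h2, ← inter_union_distrib_left, inter_eq_self_of_subset_left hZ]
    constructor
    · rintro ⟨⟨h3, h4, -⟩, -⟩
      exact ⟨⟨h3, inter_subset_inter_left _ hIZ⟩, ⟨h4, inter_subset_inter_left _ hIZ⟩, hIZ⟩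
    · rintro ⟨⟨h3, -⟩, ⟨h4, -⟩, -⟩
      exact ⟨⟨h3, h4, hIZ.trans hZ⟩, hIZ⟩

theorem Good.dual {M : Matroid S} (h : Good M) : Good M✶ := by
  obtain ⟨M₁, M₂, hd, rfl, h1, h2⟩ := h
  have hd' : Disjoint M₁✶.E M₂✶.E := by rw [dual_ground, dual_ground]; exact hd
  refine ⟨M₂✶, M₁✶, hd'.symm, ?_, h2, by rwa [dual_dual]⟩
  rw [disjointSum_dual M₁ M₂ hd hd', disjointSum_comm]

theorem Good.restrict {M : Matroid S} (h : Good M) {Z : Set S} (hZ : Z ⊆ M.E) :
    Good (M ↾ Z) := by
  obtain ⟨M₁, M₂, hd, rfl, h1, h2⟩ := h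
  rw [disjointSum_ground_eq] at hZ
  refine ⟨_, _, _, disjointSum_restrict M₁ M₂ hd Z hZ, restrict_finitary _, ?_⟩
  have h3 : (M₂ ↾ (Z ∩ M₂.E))✶ = M₂✶ ／ (M₂.E \ (Z ∩ M₂.E)) := by
    rw [← delete_compl (R := Z ∩ M₂.E) inter_subset_right, dual_delete]
  rw [h3]
  infer_instance

theorem Good.contract {M : Matroid S} (h : Good M) {C : Set S} : Good (M ／ C) := by
  have h1 : M ／ C = (M✶ ↾ (M.E \ C))✶ := by
    rw [← dual_delete_dual]
    rfl
  rw [h1]
  exact (h.dual.restrict (by rw [dual_ground]; exact sdiff_subset)).dual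

theorem good_of_finitary {M : Matroid S} (h : M.Finitary) : Good M := by
  have hd : Disjoint M.E (emptyOn S).E := by
    rw [emptyOn_ground]; exact disjoint_bot_right
  refine ⟨M, emptyOn S, hd, ?_, h, ?_⟩
  · refine ext_indep (by simp) fun I hI => ?_
    rw [disjointSum_indep_iff]
    simp only [emptyOn_ground, inter_empty, empty_indep, true_and, union_empty]
    rw [inter_eq_self_of_subset_left hI]
    simp [hI]
  · rw [emptyOn_dual_eq]
    have := freeOn_finitary (α := S) (E := ∅)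
    rwa [freeOn_empty] at this

open scoped Function in
theorem disjointSigma_dual {ι : Type*} (M : ι → Matroid S)
    (h : Pairwise (Disjoint on fun i ↦ (M i).E))
    (h' : Pairwise (Disjoint on fun i ↦ ((M i)✶).E)) :
    (Matroid.disjointSigma M h)✶ = Matroid.disjointSigma (fun i => (M i)✶) h' := by
  refine ext_isBase (by simp) fun B hB => ?_
  have hB' : B ⊆ ⋃ i, (M i).E := by simpa using hB
  rw [dual_isBase_iff (by simpa using hB'), disjointSigma_isBase_iff, disjointSigma_isBase_iff,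
    disjointSigma_ground_eq]
  simp only [dual_ground, sdiff_subset, hB', and_true]
  refine forall_congr' fun i => ?_
  rw [dual_isBase_iff (by simp)]
  have h1 : ((⋃ i, (M i).E) \ B) ∩ (M i).E = (M i).E \ (B ∩ (M i).E) := by
    ext x
    simp only [mem_inter_iff, mem_sdiff, mem_iUnion]
    constructor
    · rintro ⟨⟨-, h1⟩, h2⟩; exact ⟨h2, fun h3 => h1 h3.1⟩
    · rintro ⟨h1, h2⟩; exact ⟨⟨⟨i, h1⟩, fun h3 => h2 ⟨h3, h1⟩⟩, h1⟩
  rw [h1]

open scoped Function in
theorem disjointSigma_finitary {ι : Type*} (M : ι → Matroid S)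
    (h : Pairwise (Disjoint on fun i ↦ (M i).E)) (hf : ∀ i, (M i).Finitary) :
    (Matroid.disjointSigma M h).Finitary := by
  refine ⟨fun I hI => ?_⟩
  rw [disjointSigma_indep_iff]
  refine ⟨fun i => ?_, fun x hx => ?_⟩
  · apply (hf i).indep_of_forall_finite
    intro J hJ hJf
    have h1 := hI J (hJ.trans inter_subset_left) hJf
    rw [disjointSigma_indep_iff] at h1
    have h2 := h1.1 i
    rwa [inter_eq_self_of_subset_left (hJ.trans inter_subset_right)] at h2
  · have h1 := hI {x} (by simpa using hx) (finite_singleton x)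
    rw [disjointSigma_indep_iff] at h1
    exact h1.2 rfl

open scoped Function in
theorem good_disjointSigma {ι : Type*} (M : ι → Matroid S)
    (h : Pairwise (Disjoint on fun i ↦ (M i).E)) (hg : ∀ i, Good (M i)) :
    Good (Matroid.disjointSigma M h) := by
  choose M₁ M₂ hd hM h1 h2 using hg
  have hE : ∀ i, (M i).E = (M₁ i).E ∪ (M₂ i).E := fun i => by rw [hM i, disjointSum_ground_eq]
  have hs1 : ∀ i, (M₁ i).E ⊆ (M i).E := fun i => by rw [hE i]; exact subset_union_left
  have hs2 : ∀ i, (M₂ i).E ⊆ (M i).E := fun i => by rw [hE i]; exact subset_union_right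
  have hp1 : Pairwise (Disjoint on fun i ↦ (M₁ i).E) := fun i j hij =>
    (h hij).mono (hs1 i) (hs1 j)
  have hp2 : Pairwise (Disjoint on fun i ↦ (M₂ i).E) := fun i j hij =>
    (h hij).mono (hs2 i) (hs2 j)
  have hdd : Disjoint (Matroid.disjointSigma M₁ hp1).E (Matroid.disjointSigma M₂ hp2).E := by
    rw [disjointSigma_ground_eq, disjointSigma_ground_eq, disjoint_iUnion_left]
    intro i
    rw [disjoint_iUnion_right]
    intro j
    by_cases hij : i = j
    · subst hij; exact hd i
    · exact (h hij).mono (hs1 i) (hs2 j)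
  refine ⟨Matroid.disjointSigma M₁ hp1, Matroid.disjointSigma M₂ hp2, hdd, ?_,
    disjointSigma_finitary M₁ hp1 h1, ?_⟩
  · refine ext_indep ?_ fun I hI => ?_
    · rw [disjointSum_ground_eq, disjointSigma_ground_eq, disjointSigma_ground_eq,
        disjointSigma_ground_eq, ← iUnion_union_distrib]
      exact iUnion_congr hE
    · have hI' : I ⊆ ⋃ i, (M i).E := by simpa using hI
      rw [disjointSigma_indep_iff, disjointSum_indep_iff, disjointSigma_indep_iff,
        disjointSigma_indep_iff, disjointSigma_ground_eq, disjointSigma_ground_eq]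
      have e1 : ∀ i, I ∩ (⋃ i, (M₁ i).E) ∩ (M₁ i).E = I ∩ (M₁ i).E := by
        intro i
        rw [inter_assoc, inter_eq_self_of_subset_right (subset_iUnion (fun i => (M₁ i).E) i)]
      have e2 : ∀ i, I ∩ (⋃ i, (M₂ i).E) ∩ (M₂ i).E = I ∩ (M₂ i).E := by
        intro i
        rw [inter_assoc, inter_eq_self_of_subset_right (subset_iUnion (fun i => (M₂ i).E) i)]
      have e3 : ∀ i, (M i).Indep (I ∩ (M i).E) ↔
          (M₁ i).Indep (I ∩ (M₁ i).E) ∧ (M₂ i).Indep (I ∩ (M₂ i).E) := by
        intro i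
        have e4 : I ∩ (M i).E ∩ (M₁ i).E = I ∩ (M₁ i).E := by
          rw [inter_assoc, inter_eq_self_of_subset_right (hs1 i)]
        have e5 : I ∩ (M i).E ∩ (M₂ i).E = I ∩ (M₂ i).E := by
          rw [inter_assoc, inter_eq_self_of_subset_right (hs2 i)]
        conv_lhs => rw [hM i]
        rw [disjointSum_indep_iff, ← hM i, e4, e5]
        constructor
        · rintro ⟨h3, h4, -⟩; exact ⟨h3, h4⟩
        · rintro ⟨h3, h4⟩; exact ⟨h3, h4, by rw [← hE i]; exact inter_subset_right⟩
      simp only [e1, e2, e3, inter_subset_right, and_true]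
      rw [← iUnion_union_distrib]
      constructor
      · rintro ⟨h3, h4⟩
        exact ⟨fun i => (h3 i).1, fun i => (h3 i).2,
          hI'.trans (iUnion_mono fun i => (hE i).subset)⟩
      · rintro ⟨h3, h4, h5⟩
        exact ⟨fun i => ⟨h3 i, h4 i⟩, hI'⟩
  · have hp2' : Pairwise (Disjoint on fun i ↦ ((M₂ i)✶).E) := fun i j hij => by
      have := hp2 hij
      simpa [Function.onFun] using this
    rw [disjointSigma_dual M₂ hp2 hp2']
    exact disjointSigma_finitary _ _ h2

end Pool.Agent.W313.BM
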